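import Pool.Agent.H89.FLT.S

/-!
# FLT, row NUL: the zero set of an exponential sum is a null set
-/

set_option autoImplicit false
set_option linter.all false

open Matrix Polynomial MeasureTheory

namespace Pool.FLT

namespace NulAux

/-- a set which meets the lines of one direction in null sets is null -/
lemma null_of_lines {E : Type*} [NormedAddCommGroup E] [NormedSpace ℝ E] [MeasurableSpace E]
    [BorelSpace E] [SecondCountableTopology E] (μ : Measure E) [SFinite μ]
    [μ.IsAddRightInvariant] (S : Set E) (hS : IsClosed S) (v : E)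
    (h : ∀ x : E, {t : ℝ | x + t • v ∈ S}.Finite) : μ S = 0 := by
  have hc : Continuous fun p : E × ℝ => p.1 + p.2 • v := by fun_prop
  have hm : Measurable fun p : E × ℝ => S.indicator (fun _ => (1 : ENNReal)) (p.1 + p.2 • v) :=
    (measurable_const.indicator hS.measurableSet).comp hc.measurable
  have h1 : (∫⁻ t in Set.Icc (0 : ℝ) 1,
        (∫⁻ x, S.indicator (fun _ => (1 : ENNReal)) (x + t • v) ∂μ)) =
      ∫⁻ x, (∫⁻ t in Set.Icc (0 : ℝ) 1,
        S.indicator (fun _ => (1 : ENNReal)) (x + t • v)) ∂μ := by
    apply lintegral_lintegral_swap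
    exact (hm.comp measurable_swap).aemeasurable
  have h2 : ∀ x : E, ∫⁻ t in Set.Icc (0 : ℝ) 1, S.indicator (fun _ => (1 : ENNReal)) (x + t • v) = 0 := by
    intro x
    have hz : volume.restrict (Set.Icc (0 : ℝ) 1) {t : ℝ | x + t • v ∈ S} = 0 := by
      apply Measure.absolutelyContinuous_of_le Measure.restrict_le_self
      exact (h x).measure_zero _
    rw [lintegral_eq_zero_iff]
    · have h3 : ∀ᵐ t ∂(volume.restrict (Set.Icc (0 : ℝ) 1)), ¬ (x + t • v ∈ S) := by
        rw [ae_iff]
        simpa using hz
      filter_upwards [h3] with t ht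
      simp [ht]
    · exact hm.comp (measurable_const.prodMk measurable_id)
  have h3 : ∀ t : ℝ, ∫⁻ x, S.indicator (fun _ => (1 : ENNReal)) (x + t • v) ∂μ = μ S := by
    intro t
    rw [lintegral_add_right_eq_self (fun x => S.indicator (fun _ => (1 : ENNReal)) x) (t • v),
      lintegral_indicator hS.measurableSet]
    simp
  simp only [h2, h3] at h1
  simpa using h1

end NulAux

open NulAux

theorem nul : NULStmt := by
  intro n hn c hc
  obtain ⟨k, hk⟩ := Function.ne_iff.mp hc
  rw [Pi.zero_apply] at hk
  obtain ⟨j, hj⟩ : ∃ j : Fin n, j ≠ k := by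
    haveI : Nontrivial (Fin n) := Fin.nontrivial_iff_two_le.mpr hn
    exact exists_ne k
  let w : Fin n → ℝ := fun i => if i = k then 1 else if i = j then -1 else 0
  have hw : ∑ i, w i = 0 := by
    have h1 : ∀ i, w i = (if i = k then (1 : ℝ) else 0) + (if i = j then (-1 : ℝ) else 0) := by
      intro i
      by_cases h : i = k
      · have h' : i ≠ j := fun hh => hj (hh ▸ h)
        simp [w, h, h']
        intro hkj; exact absurd hkj.symm hj
      · simp [w, h]
    rw [Finset.sum_congr rfl (fun i _ => h1 i), Finset.sum_add_distrib]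
    simp
  let v : aa n := ⟨WithLp.toLp 2 w, hw⟩
  have hv : ∀ i, co v i = w i := fun i => rfl
  have hclosed : IsClosed {x : aa n | ∑ k, c k * Real.exp (2 * co x k) = 0} := by
    apply isClosed_eq
    · apply continuous_finset_sum
      intro i _
      have : Continuous fun x : aa n => co x i :=
        (EuclideanSpace.proj (𝕜 := ℝ) i).continuous.comp continuous_subtype_val
      fun_prop
    · exact continuous_const
  haveI : (vol n).IsAddHaarMeasure := by unfold vol; infer_instance
  refine null_of_lines (vol n) _ hclosed v ?_
  intro x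
  let m : Fin n → ℕ := fun i => if i = k then 2 else if i = j then 0 else 1
  let p : ℝ[X] := ∑ i, Polynomial.C (c i * Real.exp (2 * co x i)) * Polynomial.X ^ m i
  have hp : p ≠ 0 := by
    intro h
    have h1 : p.coeff 2 = c k * Real.exp (2 * co x k) := by
      simp only [p, Polynomial.finset_sum_coeff, Polynomial.coeff_C_mul, Polynomial.coeff_X_pow]
      rw [Finset.sum_eq_single k]
      · simp [m]
      · intro i _ hi
        by_cases hij : i = j
        · simp [m, hi, hij]
          intro h2; exfalso
          revert h2
          simp [hj]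
        · simp [m, hi, hij]
      · simp
    rw [h, Polynomial.coeff_zero] at h1
    exact mul_ne_zero hk (Real.exp_ne_zero _) h1.symm
  have hsub : {t : ℝ | x + t • v ∈ {x : aa n | ∑ k, c k * Real.exp (2 * co x k) = 0}} ⊆
      (fun t : ℝ => Real.exp (2 * t)) ⁻¹' {u | p.IsRoot u} := by
    intro t ht
    have ht' : ∑ i, c i * Real.exp (2 * co (x + t • v) i) = 0 := ht
    have h1 : ∀ i, co (x + t • v) i = co x i + t * w i := fun i => rfl
    show p.IsRoot (Real.exp (2 * t))
    rw [Polynomial.IsRoot.def]
    simp only [p, Polynomial.eval_finset_sum, Polynomial.eval_mul, Polynomial.eval_C,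
      Polynomial.eval_pow, Polynomial.eval_X]
    have h2 : ∀ i, c i * Real.exp (2 * co x i) * Real.exp (2 * t) ^ m i =
        Real.exp (2 * t) * (c i * Real.exp (2 * co (x + t • v) i)) := by
      intro i
      rw [h1, ← Real.exp_nat_mul]
      have h3 : Real.exp (2 * co x i) * Real.exp ((m i : ℝ) * (2 * t)) =
          Real.exp (2 * t) * Real.exp (2 * (co x i + t * w i)) := by
        rw [← Real.exp_add, ← Real.exp_add]
        congr 1
        by_cases hi : i = k
        · simp [m, w, hi]; ring
        · by_cases hij : i = j
          · simp only [m, w, hi, hij, if_false, if_true]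
            rw [if_neg hj, if_neg hj]
            push_cast; ring
          · simp [m, w, hi, hij]; ring
      calc c i * Real.exp (2 * co x i) * Real.exp ((m i : ℝ) * (2 * t))
          = c i * (Real.exp (2 * co x i) * Real.exp ((m i : ℝ) * (2 * t))) := by ring
        _ = _ := by rw [h3]; ring
    rw [Finset.sum_congr rfl (fun i _ => h2 i), ← Finset.mul_sum, ht', mul_zero]
  refine Set.Finite.subset ?_ hsub
  apply Set.Finite.preimage
  · intro a _ b _ hab
    have := Real.exp_injective hab
    linarith
  · exact (Polynomial.finite_setOf_isRoot hp)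

end Pool.FLT
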